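import Pool.Agent.N919.Cusp.Fin

/-!
# Inscribed squares in Jordan curves with arbitrary corners and cusps

A Jordan curve (continuous, of period `1`, injective on `[0, 1)`) contains the four vertices of a
square if each of its points is of one of the following types:

* (M) it is locally monotone there (Stromquist 1989);
* (C) both branches that end at the point are graphs of `κ`-Lipschitz functions, `κ < 1`, over one
  and the same half line (a corner or a cusp, possibly with infinitely many oscillations);
* (G) the two branches are graphs of Lipschitz functions with constants `κ₁`, `κ₂` over two half
  lines that form an arbitrary angle, where `κ₁ + κ₂ + κ₁ κ₂ < 1` (the half apertures of the two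
  cones of directions add up to less than `45` degrees; for equal constants: `κ < √2 - 1`);
* (D) it is continuously differentiable near the point except at the point itself, with non-zero
  one-sided limits of the derivative (any corner or cusp of a piecewise `C¹` curve).

If only (M) occurs this is the theorem of Stromquist; if two points are of type (C) and near the
other points the curve is the graph of a Lipschitz function with constant less than `1` over a fixed
line this contains the theorem of Tao (2017) on two Lipschitz graphs. Cusps were excluded in the
known theorems on locally monotone curves and on curves of finite total curvature.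

Idea of the proof. For a curve without inscribed squares the vertices `D`, `E` of the squares on the
left side of a directed chord define an angle function on the space of chords, whose number of half
turns for short chords is an integer charge; the charge changes by an odd number along the whole
curve and is constant along locally monotone arcs (library). Here it is shown that it does not change
at a cusp either: a short chord is moved through the cusp, first its end, then its start, such that
first `D` and then `E` stays off the curve. The chord in the middle of this motion exists since by an
area identity (Tao's conserved quantity, with a causal structure of the path of the last vertex and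
a start at its extreme abscissa) the last vertex of the squares that have three vertices on the
curve cannot stay between the two branches.
-/

set_option autoImplicit false

namespace Pool.Agent.Results.MP_5a3ebe_gt.CornersAndCusps

/-- The curve is locally monotone (in the sense of Stromquist) at the parameter `s`: near `s` all
chords of the curve lie in one open half plane. -/
def LocMono (c : ℝ → ℂ) (s : ℝ) : Prop := ∃ ρ > 0, ∃ w : ℂ, ∀ x y : ℝ, |x - s| < ρ → |y - s| < ρ →
  x < y → 0 < (w * (c y - c x)).re

/-- The branch of the curve that starts at `c s` is (near `c s`) the graph of a `κ`-Lipschitz
function over the half line that starts at `c s` and has the direction of the conjugate of `w`. -/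
def After (c : ℝ → ℂ) (s κ : ℝ) (w : ℂ) : Prop := w ≠ 0 ∧ ∃ ρ > 0, ∀ x y, s < x → x < y →
  y < s + ρ → |(w * (c y - c x)).im| ≤ κ * (w * (c y - c x)).re

/-- The branch of the curve that ends at `c s` is (near `c s`) the graph of a `κ`-Lipschitz
function over the half line that starts at `c s` and has the direction of the conjugate of `w`. -/
def Before (c : ℝ → ℂ) (s κ : ℝ) (w : ℂ) : Prop := w ≠ 0 ∧ ∃ ρ > 0, ∀ x y, s - ρ < x → x < y →
  y < s → |(w * (c x - c y)).im| ≤ κ * (w * (c x - c y)).re

/-- Near the parameter `s`, except at `s` itself, the curve is differentiable, and its derivative
has non-zero one-sided limits at `s`. -/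
def OneSidedC1 (c : ℝ → ℂ) (s : ℝ) : Prop := (∀ᶠ t in nhdsWithin s {s}ᶜ, DifferentiableAt ℝ c t) ∧
  (∃ v, v ≠ 0 ∧ Filter.Tendsto (deriv c) (nhdsWithin s (Set.Ioi s)) (nhds v)) ∧
  ∃ v, v ≠ 0 ∧ Filter.Tendsto (deriv c) (nhdsWithin s (Set.Iio s)) (nhds v)

/-- Every Jordan curve each of whose points is locally monotone, or a common endpoint of two
Lipschitz graphs with constant `κ < 1` over one half line, or a common endpoint of two Lipschitz
graphs with constants `κ₁ + κ₂ + κ₁ κ₂ < 1` over any two half lines, or a corner or cusp with
one-sided limits of the derivative, contains the four vertices of a square. -/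
theorem result (c : ℝ → ℂ) (hc : Continuous c) (hper : ∀ t, c (t + 1) = c t)
    (hinj : Set.InjOn c (Set.Ico 0 1))
    (h : ∀ s, LocMono c s ∨
      (∃ w κ, 0 < κ ∧ κ < 1 ∧ After c s κ w ∧ Before c s κ w) ∨
      (∃ w₁ w₂ κ₁ κ₂, 0 < κ₁ ∧ 0 < κ₂ ∧ κ₁ + κ₂ + κ₁ * κ₂ < 1 ∧ After c s κ₁ w₁ ∧
        Before c s κ₂ w₂) ∨
      OneSidedC1 c s) :
    ∃ z w : ℂ, w ≠ 0 ∧ z ∈ Set.range c ∧ z + w ∈ Set.range c ∧
      z + w + Complex.I * w ∈ Set.range c ∧ z + Complex.I * w ∈ Set.range c :=
  Pool.Agent.N919.Cusp.final hc hper hinj h

end Pool.Agent.Results.MP_5a3ebe_gt.CornersAndCusps
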