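import Pool.Agent.N335.Hg.Crn7

/-! Inscribed squares in Jordan curves that at each of their points are locally monotone, or have
one-sided tangents in different directions, or have an hourglass. -/

set_option autoImplicit false

namespace Pool.Agent.Results.MP_5a3ebe_gt.MonotoneTangentsHourglass

open Classical in
/-- The signed distance of `z` to the closed curve `c` (of period `1`): the distance of `z` to the
curve if the curve winds an odd number `n` of times around `z` (there is a continuous logarithm `k`
of `c - z` with `k 1 - k 0 = 2 π n i`), and minus the distance otherwise. -/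
noncomputable def sdist (c : ℝ → ℂ) (z : ℂ) : ℝ :=
  if ∃ n : ℤ, (∃ k : ℝ → ℂ, Continuous k ∧ (∀ t, Complex.exp (k t) = c t - z) ∧
      k 1 - k 0 = n * (2 * Real.pi * Complex.I)) ∧ Odd n
  then Metric.infDist z (Set.range c) else -Metric.infDist z (Set.range c)

/-- The curve `c` contains the four vertices of a square. -/
def HasSquare (c : ℝ → ℂ) : Prop :=
  ∃ z w : ℂ, w ≠ 0 ∧ z ∈ Set.range c ∧ z + w ∈ Set.range c ∧
    z + w + Complex.I * w ∈ Set.range c ∧ z + Complex.I * w ∈ Set.range c

/-- The curve is locally monotone at the parameter `t` (Stromquist): near `t` the scalar product of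
the curve with a fixed vector is strictly increasing. -/
def LocallyMonotone (c : ℝ → ℂ) (t : ℝ) : Prop := ∃ ρ > 0, ∃ w : ℂ, ∀ x y : ℝ,
  |x - t| < ρ → |y - t| < ρ → x < y → 0 < (w * (c y - c x)).re

/-- At the parameter `t` the curve has a derivative `v ≠ 0` (nothing is supposed about the
derivatives at other parameters). -/
def Differentiable₀ (c : ℝ → ℂ) (t : ℝ) : Prop := ∃ v : ℂ, v ≠ 0 ∧ HasDerivAt c v t

/-- The curve has one-sided tangents in different directions at the parameter `t`: the unit vectors
from `c t` to `c s` converge for `s → t` from the left and from the right, and the two limits are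
different (so that `c t` is not a cusp; the angle between the tangents may be arbitrarily small).
Nothing is supposed about the tangents at other points. -/
def Tangents (c : ℝ → ℂ) (t : ℝ) : Prop := ∃ u v : ℂ, ‖u‖ = 1 ∧ ‖v‖ = 1 ∧ u ≠ v ∧
  Filter.Tendsto (fun s => (c s - c t) / (‖c s - c t‖ : ℂ)) (nhdsWithin t (Set.Iio t)) (nhds u) ∧
  Filter.Tendsto (fun s => (c s - c t) / (‖c s - c t‖ : ℂ)) (nhdsWithin t (Set.Ioi t)) (nhds v)

/-- Near the parameter `t` the two branches of the curve are in opposite sectors with apex `c t`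
and with an opening of less than 90 degrees. -/
def Sectors (c : ℝ → ℂ) (t : ℝ) : Prop := ∃ (κ ρ : ℝ) (w : ℂ), 0 < κ ∧ κ < 1 ∧ 0 < ρ ∧ w ≠ 0 ∧
  (∀ s, t - ρ < s → s < t → |(w * (c s - c t)).im| ≤ κ * -(w * (c s - c t)).re) ∧
  (∀ s, t < s → s < t + ρ → |(w * (c s - c t)).im| ≤ κ * (w * (c s - c t)).re)

/-- Hourglass at the parameter `t`: for some parameters `a < a₁ < α ≤ t ≤ β < b₁ < b < a + 1` and
some `κ < 1` the arcs over `[a, α]` and over `[β, b]` are in opposite sectors of slope `κ` with apex
`c t` (of opening `2 arctan κ < 90` degrees); the arc over `[α, β]` is arbitrary but at most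
`(1 - κ)² / 10` times as far from `c t` as every point of the arcs over `[a, a₁]` and `[b₁, b]`, and
every point of the arc over `[a₁, b₁]` is at most `(1 - κ)² / 10` times as far from `c t` as `c a`
and as `c b`. Nothing is supposed about the rest of the curve. -/
def Hourglass (c : ℝ → ℂ) (t : ℝ) : Prop :=
  ∃ (κ a a₁ α β b₁ b : ℝ) (w : ℂ), 0 < κ ∧ κ < 1 ∧ w ≠ 0 ∧ a < a₁ ∧ a₁ < α ∧ α ≤ t ∧ t ≤ β ∧
    β < b₁ ∧ b₁ < b ∧ b < a + 1 ∧
    (∀ s ∈ Set.Icc a α, |(w * (c s - c t)).im| ≤ κ * -(w * (c s - c t)).re) ∧
    (∀ s ∈ Set.Icc β b, |(w * (c s - c t)).im| ≤ κ * (w * (c s - c t)).re) ∧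
    (∀ s ∈ Set.Icc α β, ∀ s' ∈ Set.Icc a a₁ ∪ Set.Icc b₁ b,
      10 * ‖c s - c t‖ ≤ (1 - κ) ^ 2 * ‖c s' - c t‖) ∧
    (∀ s ∈ Set.Icc a₁ b₁, 10 * ‖c s - c t‖ ≤ (1 - κ) ^ 2 * ‖c a - c t‖ ∧
      10 * ‖c s - c t‖ ≤ (1 - κ) ^ 2 * ‖c b - c t‖)

/-- Near the parameter `t` there are no parameters `x`, `y`, `u` such that the points `P = c x`,
`Q = c y`, `V = c u` satisfy `V = P + κ (Q - P)` (for `κ = i` or `κ = -i` and `P ≠ Q` they are the
vertices of an isosceles right triangle with right angle at `P`) and such that the fourth vertex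
`Q + κ (Q - P)` of the square `P, Q, Q + κ (Q - P), V` is strictly inside the curve. -/
def NoTriangles (c : ℝ → ℂ) (κ : ℂ) (t : ℝ) : Prop :=
  ∃ ε > 0, ∀ x y u : ℝ, |x - t| < ε → |y - t| < ε → |u - t| < ε →
    ¬ (c u = c x + κ * (c y - c x) ∧ 0 < sdist c (c y + κ * (c y - c x)))

/-- Let `c` (continuous, of period `1`, injective on `[0, 1)`) parametrise a Jordan curve, and let
`κ = ± i`. Suppose that for each parameter `t`
(1) the curve is locally monotone at `t`, or
(2) `c` has a non-zero derivative at `t`, or
(3) the curve has one-sided tangents in different directions at `t`, or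
(4) near `t` its two branches are in opposite sectors with an opening of less than 90 degrees, or
(5) there is an hourglass at `t` (the curve can be arbitrarily wild at and near `t`), or
(6) near `t` no isosceles right triangle on the curve is completed to a square by a point strictly
inside the curve (for the orientation `κ` of the triangle).
Then the curve contains the four vertices of a square. Different points may satisfy different
conditions. In particular every Jordan curve that has one-sided tangents at all its points and no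
cusps contains the vertices of a square. If all points satisfy (1) this is the theorem of
Stromquist. -/
theorem result (c : ℝ → ℂ) (hc : Continuous c) (hper : ∀ t, c (t + 1) = c t)
    (hinj : Set.InjOn c (Set.Ico 0 1)) (κ : ℂ) (hκ : κ = Complex.I ∨ κ = -Complex.I)
    (H : ∀ t, LocallyMonotone c t ∨ Differentiable₀ c t ∨ Tangents c t ∨ Sectors c t ∨
      Hourglass c t ∨ NoTriangles c κ t) :
    HasSquare c := by
  have L : H763R2.An.Loop c := ⟨hc, hper⟩
  have J : H763R2.An.Inj c := H765R3.Peg.inj_of L hinj
  refine N335.Hg.square_grand3' L J hκ fun t => ?_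
  rcases H t with h | ⟨v, hv, h⟩ | ⟨u, v, hu, hv, huv, h1, h2⟩ | h | h | ⟨ε, hε, h⟩
  · exact Or.inl h
  · exact Or.inr (Or.inl (N335.Hg.hour_of_cone L J (N335.Hg.cone_of_deriv hv h)))
  · refine Or.inr (Or.inr (Or.inl ⟨u, v, hu, hv, huv, ?_, ?_⟩))
    · convert h1 using 2 with s
      push_cast
      rw [div_eq_inv_mul]
    · convert h2 using 2 with s
      push_cast
      rw [div_eq_inv_mul]
  · exact Or.inr (Or.inl (N335.Hg.hour_of_cone L J h))
  · exact Or.inr (Or.inl h)
  · exact Or.inr (Or.inr (Or.inr ⟨ε, hε, h⟩))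

end Pool.Agent.Results.MP_5a3ebe_gt.MonotoneTangentsHourglass
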