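import Mathlib
import Pool.Agent.N94.SJ.Dirs

/-!
Squares in linear images of arbitrary Jordan curves.

No regularity of the Jordan curve is assumed. The space of shapes (linear maps up to similarity) is the
hyperbolic plane, its points at infinity are the directions of the plane which are contracted. Along
every path of linear maps which joins two different points at infinity there is an image of the curve
with an inscribed square, and with an inscribed rectangle of every given aspect ratio.
-/

set_option autoImplicit false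

namespace Pool.Agent.Results.MP_5a3ebe_gt.StretchedCopies

open Set Complex Topology Filter

/-- Four points of the curve whose images under the linear map `S` are the vertices `a`, `a + b`,
`a + b + r i b`, `a + r i b` of a rectangle with sides `|b| > 0` and `r |b|`; the side between the first
two of the points, before the application of `S`, is parallel to `e`. -/
def Inscribes (γ : Circle → ℂ) (S : ℂ →ₗ[ℝ] ℂ) (r : ℝ) (e : ℂ) : Prop :=
  ∃ x0 x1 x2 x3 : Circle, ∃ b : ℂ, b ≠ 0 ∧ S (γ x1) = S (γ x0) + b ∧
    S (γ x2) = S (γ x0) + b + r * I * b ∧ S (γ x3) = S (γ x0) + r * I * b ∧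
    ∃ c : ℝ, γ x1 - γ x0 = c * e

/-- The exceptional situation: the curve lies in a parallelogram whose vertices lie on the curve and
whose diagonals are parallel to `u` and `v`. -/
def Exceptional (γ : Circle → ℂ) (u v : ℂ) : Prop :=
  ∃ p0 p1 p2 p3 : Circle, γ p0 + γ p2 = γ p1 + γ p3 ∧
    (∃ s : ℝ, s ≠ 0 ∧ γ p1 - γ p3 = s * u) ∧ (∃ s : ℝ, s ≠ 0 ∧ γ p2 - γ p0 = s * v) ∧
    ∀ z : Circle, ∃ a ∈ Icc (0 : ℝ) 1, ∃ b ∈ Icc (0 : ℝ) 1,
      γ z = γ p0 + a * (γ p1 - γ p0) + b * (γ p3 - γ p0)

/-- **Squares in linear images of arbitrary Jordan curves.** Let `γ` be an injective closed curve in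
the plane.
(1) For all independent directions `u`, `v` which are not exceptional for `γ` there is an open set of
directions `u + k v`, `k₁ < k < k₂`, `k ≠ 0`, such that for every `r > 0` and every path
`A τ` of injective linear maps with `|A τ u| / |A τ v| → 0` for `τ → -∞` and
`|A τ v| / |A τ u| → 0` for `τ → ∞` there is a `τ` for which `A τ ∘ γ` has an inscribed rectangle of
aspect ratio `r` (a square for `r = 1`), with a side which comes from a chord of `γ` parallel to
`u + k v`.
(2) For every `u ≠ 0` there is a stretching factor `lam > 0` such that the copy of the curve stretched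
by `lam` in the direction of `u` has an inscribed square. -/
theorem result (γ : Circle → ℂ) (hγ : Continuous γ) (hinj : Function.Injective γ) :
    (∀ u v : ℂ, LinearIndependent ℝ ![u, v] → ¬ Exceptional γ u v →
      ∃ k₁ k₂ : ℝ, k₁ < k₂ ∧ ∀ k ∈ Ioo k₁ k₂, k ≠ 0 ∧ ∀ r : ℝ, 0 < r →
        ∀ A : ℝ → (ℂ →ₗ[ℝ] ℂ), (∀ z, Continuous fun τ => A τ z) →
          (∀ τ, Function.Injective (A τ)) →
          Tendsto (fun τ => ‖A τ u‖ / ‖A τ v‖) atBot (𝓝 0) →
          Tendsto (fun τ => ‖A τ v‖ / ‖A τ u‖) atTop (𝓝 0) →
          ∃ τ, Inscribes γ (A τ) r (u + k * v)) ∧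
    (∀ u : ℂ, u ≠ 0 → ∃ lam : ℝ, 0 < lam ∧ ∃ S : ℂ →ₗ[ℝ] ℂ, S u = lam • u ∧
      S (I * u) = I * u ∧ ∃ e : ℂ, Inscribes γ S 1 e) := by
  refine ⟨?_, fun u hu => Pool.Agent.N94.SJ.square γ hγ hinj u hu⟩
  intro u v huv hex
  apply Pool.Agent.N94.SJ.paths γ hγ hinj u v _ hex
  intro hd
  have hd' : u.re * v.im - u.im * v.re = 0 := hd
  rw [LinearIndependent.pair_iff] at huv
  have h1 := huv v.re (-u.re) (by
    apply Complex.ext
    · simp; ring
    · simp; linarith)
  have h2 := huv v.im (-u.im) (by
    apply Complex.ext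
    · simp; linarith
    · simp; ring)
  have hu : u = 0 := Complex.ext (by simpa using h1.2) (by simpa using h2.2)
  have h3 := huv 1 0 (by rw [hu]; simp)
  exact one_ne_zero h3.1

end Pool.Agent.Results.MP_5a3ebe_gt.StretchedCopies
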