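import Mathlib
import Pool.Agent.N440.TJ.Fin2

/-!
# Typical Jordan curves inscribe all quadrilaterals in each of their arcs

In the space of all injective continuous closed plane curves with the supremum distance, all curves
outside a sigma-porous set have the following property: every subarc contains the vertices of a
directly similar copy of EVERY quadruple of distinct points of the plane, in particular of a square.

Proof.  Near a given curve there are curves with four short subarcs, at the vertices of a small
copy of the quadrilateral, which cross four segments through these vertices in directions
(depending on the quadrilateral) for which the Jacobian of the problem is regular.  They are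
obtained by applying to the given curve, which may be arbitrarily wild, a homeomorphism of the plane
which is the composition of a vertical and a horizontal shear with four steep steps each.  By the
theorem of Poincaré and Miranda in dimension four the arcs of all curves in a ball of proportional
radius contain the vertices of similar copies of all nearby quadrilaterals.
-/

set_option autoImplicit false

namespace Pool.Agent.Results.MP_5a3ebe_gt.TypicalCurves

/-- The space of the parametrised Jordan curves: the injective continuous maps from the unit
circle to the plane, with the supremum distance. -/
abbrev JordanCurves := {γ : C(Circle, ℂ) // Function.Injective γ}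

/-- A uniformly (lower) porous set `A`: there is `c > 0` such that every sufficiently small ball
around every point `x` of the space, of radius `r`, contains the centre `y` of a ball of radius
`c * r` which does not meet `A`. -/
def Porous {X : Type*} [PseudoMetricSpace X] (A : Set X) : Prop :=
  ∃ c > 0, ∀ x : X, ∃ r₀ > 0, ∀ r, 0 < r → r < r₀ → ∃ y, dist y x < r ∧
    ∀ w, dist w y < c * r → w ∉ A

/-- The part of the curve with parameters in `U` contains the image of the points `z 0, ..., z 3`
under a direct similarity `x ↦ a x + b` of the plane. -/
def ContainsCopy (γ : JordanCurves) (U : Set Circle) (z : Fin 4 → ℂ) : Prop :=
  ∃ a b : ℂ, a ≠ 0 ∧ ∀ i, ∃ x ∈ U, γ.1 x = a * z i + b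

/-- Every nonempty open part of the curve contains a directly similar copy of every quadruple of
distinct points of the plane. -/
def Universal (γ : JordanCurves) : Prop :=
  ∀ U : Set Circle, IsOpen U → U.Nonempty →
    ∀ z : Fin 4 → ℂ, Function.Injective z → ContainsCopy γ U z

/-- The Jordan curves which do not have a similar copy of every quadruple of distinct points in
each of their nonempty open parts lie in a countable union of uniformly porous sets; they form a
meagre set of the Baire space of all Jordan curves, and the other curves are dense. -/
theorem result :
    (∃ s : ℕ → Set JordanCurves, (∀ n, Porous (s n)) ∧ {γ | ¬ Universal γ} ⊆ ⋃ n, s n) ∧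
      BaireSpace JordanCurves ∧ IsMeagre {γ : JordanCurves | ¬ Universal γ} ∧
      Dense {γ : JordanCurves | Universal γ} := by
  obtain ⟨h1, h2, h3⟩ := Pool.Agent.N440.TJ.final
  exact ⟨h1, Pool.Agent.N440.TJ.baire, h2, h3⟩

end Pool.Agent.Results.MP_5a3ebe_gt.TypicalCurves
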